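import Mathlib

/-!
# Points of codimension one: the valuation property from a principal maximal ideal
-/

set_option autoImplicit false

namespace KX

/-- Let `Q` be a noetherian domain and `𝔭` a prime ideal which is generated by `π` locally at `𝔭`. Then for all `a`, `b` one of the fractions
`a / b`, `b / a` is defined at `𝔭`. -/
theorem val_of_principal {Q : Type*} [CommRing Q] [IsDomain Q] [IsNoetherianRing Q] (𝔭 : Ideal Q) [h𝔭 : 𝔭.IsPrime] {π : Q}
    (hπ : π ∈ 𝔭) (h : ∀ a ∈ 𝔭, ∃ d ∉ 𝔭, ∃ c, d * a = π * c) (a b : Q) :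
    ∃ c d, d ∉ 𝔭 ∧ (a * d = b * c ∨ b * d = a * c) := by
  classical
  by_cases h0 : π = 0
  · by_cases ha : a = 0
    · exact ⟨0, 1, (Ideal.ne_top_iff_one 𝔭).1 h𝔭.ne_top, Or.inl (by rw [ha]; ring)⟩
    · refine ⟨b, a, fun haP => ?_, Or.inr (mul_comm _ _)⟩
      obtain ⟨d, hd, c, hc⟩ := h a haP
      rw [h0, zero_mul] at hc
      rcases mul_eq_zero.1 hc with h1 | h1
      · exact hd (h1 ▸ 𝔭.zero_mem)
      · exact ha h1
  · obtain ⟨R, hR⟩ : ∃ R : Type _, R = Localization.AtPrime 𝔭 := ⟨_, rfl⟩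
    have hdom : IsDomain (Localization.AtPrime 𝔭) := IsLocalization.isDomain_localization (Ideal.primeCompl_le_nonZeroDivisors 𝔭)
    have hinj : Function.Injective (algebraMap Q (Localization.AtPrime 𝔭)) :=
      IsLocalization.injective _ (Ideal.primeCompl_le_nonZeroDivisors 𝔭)
    have hnoeth : IsNoetherianRing (Localization.AtPrime 𝔭) := IsLocalization.isNoetherianRing 𝔭.primeCompl _ inferInstance
    have hmax : IsLocalRing.maximalIdeal (Localization.AtPrime 𝔭) = Ideal.span {algebraMap Q (Localization.AtPrime 𝔭) π} := by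
      apply le_antisymm
      · rw [← Localization.AtPrime.map_eq_maximalIdeal, Ideal.map_le_iff_le_comap]
        intro x hx
        obtain ⟨d, hd, c, hc⟩ := h x hx
        rw [Ideal.mem_comap, Ideal.mem_span_singleton]
        have hu : IsUnit (algebraMap Q (Localization.AtPrime 𝔭) d) := IsLocalization.map_units _ (⟨d, hd⟩ : 𝔭.primeCompl)
        rw [← hu.dvd_mul_left]
        exact ⟨algebraMap Q _ c, by rw [← map_mul, ← map_mul, hc]⟩
      · rw [Ideal.span_singleton_le_iff_mem, ← Localization.AtPrime.map_eq_maximalIdeal]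
        exact Ideal.mem_map_of_mem _ hπ
    have hnf : ¬ IsField (Localization.AtPrime 𝔭) := by
      intro hf
      have h1 := IsLocalRing.isField_iff_maximalIdeal_eq.1 hf
      rw [hmax, Ideal.span_singleton_eq_bot] at h1
      exact h0 (hinj (by rw [h1, map_zero]))
    have hdvr : IsDiscreteValuationRing (Localization.AtPrime 𝔭) := by
      refine ((IsDiscreteValuationRing.TFAE (Localization.AtPrime 𝔭) hnf).out 0 4).2 ?_
      exact ⟨⟨_, hmax⟩⟩
    have hval : ValuationRing (Localization.AtPrime 𝔭) := inferInstance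
    have key : ∀ a b : Q, (∃ c : Localization.AtPrime 𝔭, algebraMap Q _ a * c = algebraMap Q _ b) →
        ∃ c d, d ∉ 𝔭 ∧ b * d = a * c := by
      rintro a b ⟨c, hc⟩
      obtain ⟨⟨c', d'⟩, hcd⟩ := IsLocalization.surj 𝔭.primeCompl c
      refine ⟨c', d', d'.2, hinj ?_⟩
      rw [map_mul, map_mul, ← hc, ← hcd]
      ring
    obtain ⟨c, hc | hc⟩ := ValuationRing.cond (algebraMap Q (Localization.AtPrime 𝔭) a) (algebraMap Q (Localization.AtPrime 𝔭) b)
    · obtain ⟨c', d', h1, h2⟩ := key a b ⟨c, hc⟩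
      exact ⟨c', d', h1, Or.inr h2⟩
    · obtain ⟨c', d', h1, h2⟩ := key b a ⟨c, hc⟩
      exact ⟨c', d', h1, Or.inl h2⟩

end KX
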