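import Pool.Agent.Lib.MP_17a322_ntKX.V1a

/-!
# Points of codimension one: the valuation property in an etale chart
-/

set_option autoImplicit false

namespace KX

open Polynomial

/-- The local ring in an etale chart. Let `ρ : P → Ω` be a homomorphism from a domain to a field whose kernel is generated by `π`, let `Φ` be
a monic polynomial over `P` and let `θ'` be a simple root of it in `Ω`. If `F (θ') = 0` there are `R`, `S`, `G` with `R (θ') ≠ 0` and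
`R F = Φ S + π G`. -/
theorem exists_rel {P Ω : Type*} [CommRing P] [Field Ω] (ρ : P →+* Ω) {π : P} (hπ : ∀ p, ρ p = 0 ↔ π ∣ p) {Φ : P[X]}
    (hΦ : Φ.Monic) {θ : Ω} (hθ : Φ.eval₂ ρ θ = 0) (hθ' : (derivative Φ).eval₂ ρ θ ≠ 0) {F : P[X]} (hF : F.eval₂ ρ θ = 0) :
    ∃ R S G : P[X], R.eval₂ ρ θ ≠ 0 ∧ R * F = Φ * S + C π * G := by
  classical
  have hprime : (RingHom.ker ρ).IsPrime := RingHom.ker_isPrime ρ
  obtain ⟨κ, hκ⟩ : ∃ κ : P ⧸ RingHom.ker ρ →+* Ω, κ = RingHom.kerLift ρ := ⟨_, rfl⟩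
  have hκi : Function.Injective κ := by rw [hκ]; exact RingHom.kerLift_injective ρ
  have hκm : ∀ p, κ (Ideal.Quotient.mk _ p) = ρ p := by rw [hκ]; exact RingHom.kerLift_mk ρ
  obtain ⟨j, hj⟩ : ∃ j : FractionRing (P ⧸ RingHom.ker ρ) →+* Ω, j = IsFractionRing.lift hκi := ⟨_, rfl⟩
  have hjm : ∀ p, j (algebraMap (P ⧸ RingHom.ker ρ) _ p) = κ p := by rw [hj]; exact IsFractionRing.lift_algebraMap hκi
  let _ : Algebra (FractionRing (P ⧸ RingHom.ker ρ)) Ω := j.toAlgebra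
  obtain ⟨τ, hτ⟩ : ∃ τ : P →+* FractionRing (P ⧸ RingHom.ker ρ), ∀ p, τ p = algebraMap (P ⧸ RingHom.ker ρ) _ (Ideal.Quotient.mk _ p) :=
    ⟨(algebraMap (P ⧸ RingHom.ker ρ) (FractionRing (P ⧸ RingHom.ker ρ))).comp (Ideal.Quotient.mk _), fun _ => rfl⟩
  have hjτ : ∀ p, j (τ p) = ρ p := fun p => by rw [hτ, hjm, hκm]
  have hcomp : (algebraMap (FractionRing (P ⧸ RingHom.ker ρ)) Ω).comp τ = ρ := RingHom.ext hjτ
  have hev : ∀ H : P[X], aeval θ (H.map τ) = H.eval₂ ρ θ := fun H => by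
    rw [aeval_def, eval₂_map, hcomp]
  have hint : IsIntegral (FractionRing (P ⧸ RingHom.ker ρ)) θ := ⟨Φ.map τ, hΦ.map τ, by rw [← aeval_def, hev, hθ]⟩
  obtain ⟨r, hr⟩ := minpoly.dvd (FractionRing (P ⧸ RingHom.ker ρ)) θ (p := Φ.map τ) (by rw [hev, hθ])
  obtain ⟨s, hs⟩ := minpoly.dvd (FractionRing (P ⧸ RingHom.ker ρ)) θ (p := F.map τ) (by rw [hev, hF])
  have hrθ : aeval θ r ≠ 0 := by
    intro h0
    have h1 : aeval θ (derivative (Φ.map τ)) = 0 := by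
      rw [hr, derivative_mul, map_add, map_mul, map_mul, minpoly.aeval, h0, mul_zero, zero_mul, add_zero]
    rw [derivative_map, hev] at h1
    exact hθ' h1
  -- clear the denominators
  have hclear : ∀ q : (FractionRing (P ⧸ RingHom.ker ρ))[X], ∃ (b : P) (H : P[X]), ρ b ≠ 0 ∧ H.map τ = C (τ b) * q := by
    intro q
    obtain ⟨b, hb, hbq⟩ := IsLocalization.integerNormalization_spec (nonZeroDivisors (P ⧸ RingHom.ker ρ)) q
    obtain ⟨b', rfl⟩ := Ideal.Quotient.mk_surjective b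
    obtain ⟨H, hH⟩ := Polynomial.map_surjective (Ideal.Quotient.mk (RingHom.ker ρ)) Ideal.Quotient.mk_surjective
      (IsLocalization.integerNormalization (nonZeroDivisors (P ⧸ RingHom.ker ρ)) q)
    refine ⟨b', H, fun h0 => ?_, ?_⟩
    · refine nonZeroDivisors.ne_zero hb ?_
      rw [Ideal.Quotient.eq_zero_iff_mem]
      exact h0
    · have h1 : H.map τ = (H.map (Ideal.Quotient.mk (RingHom.ker ρ))).map
          (algebraMap (P ⧸ RingHom.ker ρ) (FractionRing (P ⧸ RingHom.ker ρ))) := by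
        rw [Polynomial.map_map]
        congr 1
        exact RingHom.ext hτ
      rw [h1, hH, hbq, hτ, ← algebraMap_smul (FractionRing (P ⧸ RingHom.ker ρ)) (Ideal.Quotient.mk (RingHom.ker ρ) b') q,
        smul_eq_C_mul]
  obtain ⟨b, R₀, hb, hR₀⟩ := hclear r
  obtain ⟨c, S₀, hc, hS₀⟩ := hclear s
  have hev' : ∀ q : (FractionRing (P ⧸ RingHom.ker ρ))[X], ∀ a : P, aeval θ (C (τ a) * q) = ρ a * aeval θ q := by
    intro q a
    rw [map_mul, aeval_C]
    congr 1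
    exact hjτ a
  have hzero : ((C c * R₀) * F - Φ * (C b * S₀)).map τ = 0 := by
    rw [Polynomial.map_sub, Polynomial.map_mul, Polynomial.map_mul, Polynomial.map_mul, Polynomial.map_mul, hR₀, hS₀, map_C, map_C,
      hr, hs]
    ring
  obtain ⟨G, hG⟩ := (C_dvd_iff_dvd_coeff π ((C c * R₀) * F - Φ * (C b * S₀))).2 fun i => by
    rw [← hπ, ← hjτ, ← coeff_map, hzero, coeff_zero, map_zero]
  refine ⟨C c * R₀, C b * S₀, G, ?_, ?_⟩
  · rw [← hev, Polynomial.map_mul, map_C, hev', hR₀, hev']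
    exact mul_ne_zero hc (mul_ne_zero hb hrθ)
  · rw [← hG]
    ring

/-- The valuation property in an etale chart. -/
theorem val_chart {P Q Ω : Type*} [CommRing P] [CommRing Q] [IsDomain Q] [IsNoetherianRing Q] [Algebra P Q] [Field Ω]
    (ψ : Q →+* Ω) {θ : Q} {Φ : P[X]} (hΦ : Φ.Monic) (hθ : aeval θ Φ = 0) (hθ' : ψ (aeval θ (derivative Φ)) ≠ 0) {δ : P}
    (hδ : ψ (algebraMap P Q δ) ≠ 0) (hgen : ∀ q : Q, ∃ (k : ℕ) (F : P[X]), algebraMap P Q δ ^ k * q = aeval θ F) {π : P}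
    (hπ : ∀ p : P, ψ (algebraMap P Q p) = 0 ↔ π ∣ p) (a b : Q) :
    ∃ c d, ψ d ≠ 0 ∧ (a * d = b * c ∨ b * d = a * c) := by
  have hprime : (RingHom.ker ψ).IsPrime := RingHom.ker_isPrime ψ
  have hev : ∀ H : P[X], ψ (aeval θ H) = H.eval₂ (ψ.comp (algebraMap P Q)) (ψ θ) := fun H => by
    rw [aeval_def, hom_eval₂]
  have key : ∀ q ∈ RingHom.ker ψ, ∃ d ∉ RingHom.ker ψ, ∃ c, d * q = algebraMap P Q π * c := by
    intro q hq
    obtain ⟨k, F, hF⟩ := hgen q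
    obtain ⟨R, S, G, hR, hRF⟩ := exists_rel (ψ.comp (algebraMap P Q)) hπ hΦ (θ := ψ θ) (by rw [← hev, hθ, map_zero])
      (by rw [← hev]; exact hθ') (F := F) (by rw [← hev, ← hF, map_mul, (RingHom.mem_ker).1 hq, mul_zero])
    refine ⟨aeval θ R * algebraMap P Q δ ^ k, fun h0 => ?_, aeval θ G, ?_⟩
    · have h1 := (RingHom.mem_ker).1 h0
      rw [map_mul, map_pow, hev] at h1
      exact mul_ne_zero hR (pow_ne_zero _ hδ) h1
    · rw [mul_assoc, hF, ← map_mul, hRF, map_add, map_mul, map_mul, hθ, zero_mul, zero_add, aeval_C]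
  obtain ⟨c, d, hd, h⟩ := val_of_principal (RingHom.ker ψ) (π := algebraMap P Q π) ((RingHom.mem_ker).2 ((hπ π).2 dvd_rfl)) key a b
  exact ⟨c, d, fun h0 => hd ((RingHom.mem_ker).2 h0), h⟩

end KX
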