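import Mathlib

/-!
# The relations between the coordinates of a point of codimension at most one are generated by one polynomial
-/

set_option autoImplicit false

namespace KX

open Polynomial

universe u

/-- Polynomials in one variable over a unique factorization domain `P₀` which vanish at a given element of an extension field: the kernel of
the evaluation is generated by one element. -/
theorem ker_principal_one {P₀ L : Type*} [CommRing P₀] [IsDomain P₀] [NormalizedGCDMonoid P₀] [Field L] (ρ : P₀ →+* L)
    (hρ : Function.Injective ρ) (t : L) : ∃ π : P₀[X], ∀ p : P₀[X], p.eval₂ ρ t = 0 ↔ π ∣ p := by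
  classical
  obtain ⟨j, hj⟩ : ∃ j : FractionRing P₀ →+* L, j = IsFractionRing.lift hρ := ⟨_, rfl⟩
  have hjm : ∀ p, j (algebraMap P₀ _ p) = ρ p := by rw [hj]; exact IsFractionRing.lift_algebraMap hρ
  let _ : Algebra (FractionRing P₀) L := j.toAlgebra
  have hcomp : (algebraMap (FractionRing P₀) L).comp (algebraMap P₀ (FractionRing P₀)) = ρ := RingHom.ext hjm
  have hev : ∀ H : P₀[X], aeval t (H.map (algebraMap P₀ (FractionRing P₀))) = H.eval₂ ρ t := fun H => by
    rw [aeval_def, eval₂_map, hcomp]
  by_cases ht : IsIntegral (FractionRing P₀) t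
  · obtain ⟨b, hb, hbq⟩ := IsLocalization.integerNormalization_spec (nonZeroDivisors P₀) (minpoly (FractionRing P₀) t)
    obtain ⟨ψ, hψ⟩ : ∃ ψ, ψ = IsLocalization.integerNormalization (nonZeroDivisors P₀) (minpoly (FractionRing P₀) t) := ⟨_, rfl⟩
    rw [← hψ, ← algebraMap_smul (FractionRing P₀) b, smul_eq_C_mul] at hbq
    have hb0 : algebraMap P₀ (FractionRing P₀) b ≠ 0 := fun h0 =>
      nonZeroDivisors.ne_zero hb (IsFractionRing.injective P₀ (FractionRing P₀) (by rw [h0, map_zero]))
    have hψ0 : ψ ≠ 0 := by
      rintro h0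
      rw [h0, Polynomial.map_zero] at hbq
      exact mul_ne_zero (C_ne_zero.2 hb0) (minpoly.ne_zero ht) hbq.symm
    have hd : ψ.primPart.map (algebraMap P₀ (FractionRing P₀)) ∣ minpoly (FractionRing P₀) t := by
      have h1 : ψ.primPart.map (algebraMap P₀ (FractionRing P₀)) ∣ C (algebraMap P₀ (FractionRing P₀) b) * minpoly (FractionRing P₀) t := by
        rw [← hbq]
        exact Polynomial.map_dvd _ (primPart_dvd ψ)
      exact (isUnit_C.2 (isUnit_iff_ne_zero.2 hb0)).dvd_mul_left.1 h1
    have h0 : ψ.primPart.eval₂ ρ t = 0 := by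
      have h1 : ψ.eval₂ ρ t = 0 := by
        rw [← hev, hbq, map_mul, minpoly.aeval, mul_zero]
      rw [ψ.eq_C_content_mul_primPart, eval₂_mul, eval₂_C] at h1
      rcases mul_eq_zero.1 h1 with h2 | h2
      · exact absurd (hρ (h2.trans (map_zero ρ).symm)) (mt content_eq_zero_iff.1 hψ0)
      · exact h2
    refine ⟨ψ.primPart, fun p => ⟨fun h => ?_, ?_⟩⟩
    · refine (isPrimitive_primPart ψ).dvd_of_fraction_map_dvd_fraction_map (K := FractionRing P₀) (hd.trans ?_)
      exact minpoly.dvd _ _ (by rw [hev, h])
    · rintro ⟨q, rfl⟩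
      rw [eval₂_mul, h0, zero_mul]
  · refine ⟨0, fun p => ⟨fun h => ?_, fun h => ?_⟩⟩
    · rw [zero_dvd_iff]
      by_contra hp
      refine ht (IsAlgebraic.isIntegral ⟨p.map (algebraMap P₀ (FractionRing P₀)), fun h0 => hp ?_, by rw [hev, h]⟩)
      exact map_injective _ (IsFractionRing.injective P₀ (FractionRing P₀)) (h0.trans (Polynomial.map_zero _).symm)
    · rw [zero_dvd_iff.1 h, eval₂_zero]

open scoped IntermediateField.algebraAdjoinAdjoin in
/-- Among `n + 1` elements which generate a field of transcendence degree at least `n` there are `n` algebraically independent ones. -/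
theorem exists_succAbove {k L : Type u} [Field k] [Field L] [Algebra k L] {n : ℕ} (z : Fin (n + 1) → L)
    (hz : ((n + 1 : ℕ) : Cardinal.{u}) ≤ Algebra.trdeg k (IntermediateField.adjoin k (Set.range z)) + 1) :
    ∃ i : Fin (n + 1), AlgebraicIndependent k (z ∘ i.succAbove) := by
  classical
  obtain ⟨z', hz'⟩ : ∃ z' : Fin (n + 1) → IntermediateField.adjoin k (Set.range z), ∀ i, (z' i : L) = z i :=
    ⟨fun i => ⟨z i, IntermediateField.subset_adjoin k _ ⟨i, rfl⟩⟩, fun _ => rfl⟩
  have hE : IntermediateField.adjoin k (Set.range z') = ⊤ := by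
    have h1 : IntermediateField.lift (IntermediateField.adjoin k (Set.range z')) = IntermediateField.adjoin k (Set.range z) := by
      rw [IntermediateField.lift_adjoin, ← Set.range_comp]
      congr 2
      exact funext hz'
    exact IntermediateField.lift_injective _ (by rw [h1, IntermediateField.lift_top])
  have halg : Algebra.IsAlgebraic (Algebra.adjoin k (Set.range z')) (IntermediateField.adjoin k (Set.range z)) := by
    have h2 : Algebra.IsAlgebraic (IntermediateField.adjoin k (Set.range z')) (IntermediateField.adjoin k (Set.range z)) := by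
      rw [hE]
      constructor
      intro y
      exact isAlgebraic_algebraMap (⟨y, IntermediateField.mem_top⟩ : (⊤ : IntermediateField k _))
    exact IntermediateField.isAlgebraic_adjoin_iff_top.1 h2
  obtain ⟨t, ht, hb⟩ := exists_isTranscendenceBasis_subset (R := k) (Set.range z')
  choose i hi using fun b : t => ht b.2
  have hinj : Function.Injective i := by
    intro b b' h
    apply Subtype.ext
    rw [← hi b, ← hi b', h]
  have hfin : Finite t := Finite.of_injective i hinj
  have hfin' : Fintype t := Fintype.ofFinite t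
  have hcard : n ≤ Fintype.card t := by
    rw [← hb.cardinalMk_eq_trdeg, Cardinal.mk_fintype] at hz
    have h3 : n + 1 ≤ Fintype.card t + 1 := by exact_mod_cast hz
    omega
  obtain ⟨i₀, hi₀⟩ : ∃ i₀ : Fin (n + 1), ∀ j, j ≠ i₀ → j ∈ Finset.univ.image i := by
    by_contra hno
    push Not at hno
    obtain ⟨j₁, h1, h1'⟩ := hno 0
    obtain ⟨j₂, h2, h2'⟩ := hno j₁
    have h4 : (Finset.univ.image i) ⊆ Finset.univ \ {j₁, j₂} := by
      intro x hx
      rw [Finset.mem_sdiff, Finset.mem_insert, Finset.mem_singleton, not_or]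
      exact ⟨Finset.mem_univ _, fun h => h1' (h ▸ hx), fun h => h2' (h ▸ hx)⟩
    have h5 := Finset.card_le_card h4
    rw [Finset.card_image_of_injective _ hinj, Finset.card_sdiff_of_subset (Finset.subset_univ _), Finset.card_pair h2.symm,
      Finset.card_univ, Finset.card_univ, Fintype.card_fin] at h5
    have h6 : 1 < n + 1 := by
      have h7 := Finset.card_le_card (Finset.subset_univ {j₁, j₂})
      rw [Finset.card_pair h2.symm, Finset.card_univ, Fintype.card_fin] at h7
      omega
    omega
  refine ⟨i₀, ?_⟩
  have hex : ∀ j : Fin n, ∃ b : t, i b = i₀.succAbove j := fun j => by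
    obtain ⟨b, -, hb'⟩ := Finset.mem_image.1 (hi₀ (i₀.succAbove j) (Fin.succAbove_ne i₀ j))
    exact ⟨b, hb'⟩
  choose b hb' using hex
  have hbinj : Function.Injective b := fun j j' h => by
    have h8 := congrArg i h
    rw [hb', hb'] at h8
    exact Fin.succAbove_right_injective h8
  have h9 : AlgebraicIndependent k (fun j => z' (i₀.succAbove j)) := by
    have h10 := hb.1.comp b hbinj
    have h11 : (fun j => z' (i₀.succAbove j)) = ((↑) : t → IntermediateField.adjoin k (Set.range z)) ∘ b := by
      funext j
      rw [Function.comp_apply, ← hi (b j), hb']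
    rw [h11]
    exact h10
  have h12 := h9.map' (f := (IntermediateField.adjoin k (Set.range z)).val) (IntermediateField.adjoin k (Set.range z)).val.injective
  have h13 : z ∘ i₀.succAbove = (IntermediateField.adjoin k (Set.range z)).val ∘ fun j => z' (i₀.succAbove j) := by
    funext j
    exact (hz' _).symm
  rw [h13]
  exact h12

open MvPolynomial in
/-- Let `z₁, …, zₙ` be elements of an extension field of `k` which generate a field of transcendence degree at least `n - 1`. Then the ideal of
all polynomial relations between them is generated by one polynomial. -/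
theorem ker_principal {k L : Type u} [Field k] [Field L] [Algebra k L] {n : ℕ} (z : Fin n → L)
    (hz : (n : Cardinal.{u}) ≤ Algebra.trdeg k (IntermediateField.adjoin k (Set.range z)) + 1) :
    ∃ π : MvPolynomial (Fin n) k, ∀ p, MvPolynomial.aeval z p = 0 ↔ π ∣ p := by
  classical
  rcases n with _ | n
  · refine ⟨0, fun p => ?_⟩
    rw [zero_dvd_iff, MvPolynomial.eq_C_of_isEmpty p, MvPolynomial.aeval_C, map_eq_zero_iff _ (algebraMap k L).injective,
      map_eq_zero_iff _ (MvPolynomial.C_injective _ _)]
  · obtain ⟨i, hi⟩ := exists_succAbove z hz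
    let _ : StrongNormalizationMonoid (MvPolynomial (Fin n) k) := UniqueFactorizationMonoid.strongNormalizationMonoid
    let _ : NormalizedGCDMonoid (MvPolynomial (Fin n) k) := UniqueFactorizationMonoid.toNormalizedGCDMonoid _
    obtain ⟨ρ, hρ⟩ : ∃ ρ : MvPolynomial (Fin n) k →+* L, ∀ p, ρ p = MvPolynomial.aeval (z ∘ i.succAbove) p :=
      ⟨(MvPolynomial.aeval (z ∘ i.succAbove) : MvPolynomial (Fin n) k →ₐ[k] L).toRingHom, fun _ => rfl⟩
    have hρi : Function.Injective ρ := fun p q h => hi (by rw [← hρ, ← hρ, h])
    obtain ⟨π, hπ⟩ := ker_principal_one ρ hρi (z i)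
    obtain ⟨e, he⟩ : ∃ e : MvPolynomial (Fin (n + 1)) k ≃ₐ[k] Polynomial (MvPolynomial (Fin n) k),
        e = (MvPolynomial.renameEquiv k (finSuccEquiv' i)).trans (MvPolynomial.optionEquivLeft k (Fin n)) := ⟨_, rfl⟩
    have hev : ∀ p, MvPolynomial.aeval z p = (e p).eval₂ ρ (z i) := by
      intro p
      induction p using MvPolynomial.induction_on with
      | C a =>
        rw [he, AlgEquiv.trans_apply, MvPolynomial.renameEquiv_apply, MvPolynomial.rename_C, MvPolynomial.optionEquivLeft_C,
          Polynomial.eval₂_C, hρ, MvPolynomial.aeval_C, MvPolynomial.aeval_C]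
      | add p q hp hq => rw [map_add, map_add, Polynomial.eval₂_add, hp, hq]
      | mul_X p j hp =>
        rw [map_mul, map_mul, Polynomial.eval₂_mul, hp]
        congr 1
        rw [MvPolynomial.aeval_X, he, AlgEquiv.trans_apply, MvPolynomial.renameEquiv_apply, MvPolynomial.rename_X]
        rcases eq_or_ne j i with rfl | hji
        · rw [finSuccEquiv'_at, MvPolynomial.optionEquivLeft_X_none, Polynomial.eval₂_X]
        · obtain ⟨l, rfl⟩ := Fin.exists_succAbove_eq hji
          rw [finSuccEquiv'_succAbove, MvPolynomial.optionEquivLeft_X_some, Polynomial.eval₂_C, hρ, MvPolynomial.aeval_X,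
            Function.comp_apply]
    refine ⟨e.symm π, fun p => ?_⟩
    rw [hev, hπ]
    constructor
    · rintro ⟨q, hq⟩
      exact ⟨e.symm q, by rw [← map_mul, ← hq, AlgEquiv.symm_apply_apply]⟩
    · rintro ⟨q, rfl⟩
      exact ⟨e q, by rw [map_mul, AlgEquiv.apply_symm_apply]⟩

end KX
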